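import Pool.Agent.Lib.MP_72b52d_lc.CR.Stmt

set_option autoImplicit false

/-!
# MP_d80832_gt : covers and selection principles relativised to a transitive model

`N` is a transitive model of `ZFC`. Sets of reals are coded by `setR`. Finiteness of families of
sets of `N` is absolute, so it is not relativised.
-/

namespace Pool.Agent.HM

open Pool.Agent.CR (V nat cut setR)

/-- The family `U` of sets of reals as a set of the universe `V`. -/
noncomputable def famR (U : Set (Set ℝ)) : V := ZFSet.range (fun A : U => setR A.1)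

/-- The sequence `W` of sets of reals as a set of `V`: the set of all pairs `(n, W n)`. -/
noncomputable def seqA (W : ℕ → Set ℝ) : V :=
  ZFSet.range (fun n : ℕ => ZFSet.pair (nat n) (setR (W n)))

/-- The sequence `U` of families of sets of reals as a set of `V`: the set of all pairs `(n, A)`
with `A ∈ U n`. -/
noncomputable def seqF (U : ℕ → Set (Set ℝ)) : V :=
  ZFSet.range (fun p : {p : ℕ × Set ℝ // p.2 ∈ U p.1} => ZFSet.pair (nat p.1.1) (setR p.1.2))

/-- The sequence `s` of reals as a set of `V`: the set of all pairs `(n, s n)`. -/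
noncomputable def seqX (s : ℕ → ℝ) : V :=
  ZFSet.range (fun n : ℕ => ZFSet.pair (nat n) (cut (s n)))

/-- In the model `N`, `A` is a Borel subset of the space `X`: it belongs to every family of `N`
which contains the traces on `X` of the rational intervals and is closed under complements in `X`
and under unions of sequences of `N`. -/
def BorelIn (N : Set V) (X A : Set ℝ) : Prop :=
  ∀ E : Set (Set ℝ), famR E ∈ N → (∀ a b : ℚ, X ∩ Set.Ioo (a : ℝ) b ∈ E) →
    (∀ D ∈ E, X \ D ∈ E) →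
    (∀ W : ℕ → Set ℝ, seqA W ∈ N → (∀ n, W n ∈ E) → (⋃ n, W n) ∈ E) → A ∈ E

/-- In the model `N`, `U` is a countable family of Borel subsets of the space `X`. -/
def CtblBorel (N : Set V) (X : Set ℝ) (U : Set (Set ℝ)) : Prop :=
  famR U ∈ N ∧ (∃ W : ℕ → Set ℝ, seqA W ∈ N ∧ U ⊆ Set.range W) ∧ ∀ A ∈ U, BorelIn N X A

/-- `U` is a cover of `X`: its union is `X` and `X` is not a member. -/
def IsCover (X : Set ℝ) (U : Set (Set ℝ)) : Prop := ⋃₀ U = X ∧ X ∉ U

/-- Each point of `X` lies in infinitely many members. -/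
def IsLarge (X : Set ℝ) (U : Set (Set ℝ)) : Prop := ∀ x ∈ X, {A ∈ U | x ∈ A}.Infinite

/-- omega-cover: each finite subset of `X` is contained in a member. -/
def IsOmegaCover (X : Set ℝ) (U : Set (Set ℝ)) : Prop :=
  IsCover X U ∧ ∀ F : Set ℝ, F.Finite → F ⊆ X → ∃ A ∈ U, F ⊆ A

/-- gamma-cover: infinite, and each point of `X` is in all but finitely many members. -/
def IsGammaCover (X : Set ℝ) (U : Set (Set ℝ)) : Prop :=
  IsCover X U ∧ U.Infinite ∧ ∀ x ∈ X, {A ∈ U | x ∉ A}.Finite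

/-- tau-cover: large, and for all `x, y ∈ X` one of the two difference families is finite. -/
def IsTauCover (X : Set ℝ) (U : Set (Set ℝ)) : Prop :=
  IsCover X U ∧ IsLarge X U ∧ ∀ x ∈ X, ∀ y ∈ X,
    {A ∈ U | x ∈ A ∧ y ∉ A}.Finite ∨ {A ∈ U | y ∈ A ∧ x ∉ A}.Finite

/-- The countable Borel covers of `X` in `N`. -/
def BCov (N : Set V) (X : Set ℝ) : Set (Set (Set ℝ)) := {U | IsCover X U ∧ CtblBorel N X U}

/-- The countable Borel omega-covers of `X` in `N`. -/
def BOmega (N : Set V) (X : Set ℝ) : Set (Set (Set ℝ)) :=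
  {U | IsOmegaCover X U ∧ CtblBorel N X U}

/-- The countable Borel tau-covers of `X` in `N`. -/
def BTau (N : Set V) (X : Set ℝ) : Set (Set (Set ℝ)) := {U | IsTauCover X U ∧ CtblBorel N X U}

/-- The countable Borel gamma-covers of `X` in `N`. -/
def BGamma (N : Set V) (X : Set ℝ) : Set (Set (Set ℝ)) :=
  {U | IsGammaCover X U ∧ CtblBorel N X U}

/-- The selection principle `S1` in the model `N`. -/
def S1 (N : Set V) (A B : Set (Set (Set ℝ))) : Prop :=
  ∀ U : ℕ → Set (Set ℝ), seqF U ∈ N → (∀ n, U n ∈ A) →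
    ∃ W : ℕ → Set ℝ, seqA W ∈ N ∧ (∀ n, W n ∈ U n) ∧ Set.range W ∈ B

/-- The selection principle `Sfin` in the model `N`. -/
def Sfin (N : Set V) (A B : Set (Set (Set ℝ))) : Prop :=
  ∀ U : ℕ → Set (Set ℝ), seqF U ∈ N → (∀ n, U n ∈ A) →
    ∃ F : ℕ → Set (Set ℝ), seqF F ∈ N ∧ (∀ n, (F n).Finite ∧ F n ⊆ U n) ∧ (⋃ n, F n) ∈ B

/-- In the model `N`, the set of reals `Y` is uncountable. -/
def UncountableIn (N : Set V) (Y : Set ℝ) : Prop :=
  ¬ ∃ s : ℕ → ℝ, seqX s ∈ N ∧ Y ⊆ Set.range s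

/-- The space `X` has the six properties in `N`. -/
def AllSix (N : Set V) (X : Set ℝ) : Prop :=
  S1 N (BTau N X) (BGamma N X) ∧ S1 N (BTau N X) (BTau N X) ∧ S1 N (BTau N X) (BOmega N X) ∧
    S1 N (BTau N X) (BCov N X) ∧ Sfin N (BTau N X) (BTau N X) ∧ Sfin N (BTau N X) (BOmega N X)

/-- The space `Y` has none of the six properties in `N`. -/
def NoneOfSix (N : Set V) (Y : Set ℝ) : Prop :=
  ¬ S1 N (BTau N Y) (BGamma N Y) ∧ ¬ S1 N (BTau N Y) (BTau N Y) ∧
    ¬ S1 N (BTau N Y) (BOmega N Y) ∧ ¬ S1 N (BTau N Y) (BCov N Y) ∧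
    ¬ Sfin N (BTau N Y) (BTau N Y) ∧ ¬ Sfin N (BTau N Y) (BOmega N Y)

end Pool.Agent.HM
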