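import Pool.Agent.Lib.MP_d80832_gt.Tower
import Pool.Agent.Lib.MP_d80832_gt.Mod.Q
import Pool.Agent.Lib.MP_d988c5_lc.FW

set_option autoImplicit false

/-!
# MP_d80832_gt : the forcing conditions, the objects and the names
-/

namespace Pool.Agent.HM

open Pool.Agent.Lib.MP_d80832_gt
open Pool.Agent.CR (Nm V nat natN cut setR Memf Eqf)

/-- the points of the space of the construction -/
abbrev Pt : Type := ℕ → Node

/-- the Borel subsets of the space -/
abbrev Ms : Type := {D : Set Pt // MeasurableSet D}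

/-- the columns -/
def col (i : ℕ) : ℕ := (Nat.unpair i).1

/-- the forcing conditions: countable parts of the two sets, and a tree condition which contains
all points to be added later -/
structure Cn where
  X : Set Pt
  Y : Set Pt
  C : ℕ → Finset Node
  cX : X.Countable
  sub : Y ⊆ X
  cC : Cond C
  chain : ∀ u ∈ Y, ∀ v ∈ Y, ∀ k, Below col k u v ∨ Below col k v u
  below : ∀ u ∈ Y, ∀ x ∈ star C, ∀ k, Below col k x u
  ball : ∀ y ∈ Y, ∀ᶠ i in Filter.atTop, y i ∈ Node.ball (H i)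

instance : Preorder Cn where
  le q p := p.X ⊆ q.X ∧ p.Y ⊆ q.Y ∧ Le q.C p.C ∧ (∀ x ∈ q.X, x ∉ p.X → x ∈ star p.C) ∧
    ∀ x ∈ q.Y, x ∉ p.Y → x ∈ star p.C
  le_refl p := ⟨subset_rfl, subset_rfl, Le.refl _, fun _ h h' => absurd h h',
    fun _ h h' => absurd h h'⟩
  le_trans r q p h1 h2 := by
    refine ⟨h2.1.trans h1.1, h2.2.1.trans h1.2.1, Le.trans h1.2.2.1 h2.2.2.1, ?_, ?_⟩
    · intro x hx hx'
      by_cases h : x ∈ q.X
      · exact h2.2.2.2.1 x h hx'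
      · exact star_mono h2.2.2.1 (h1.2.2.2.1 x hx h)
    · intro x hx hx'
      by_cases h : x ∈ q.Y
      · exact h2.2.2.2.2 x h hx'
      · exact star_mono h2.2.2.1 (h1.2.2.2.2 x hx h)

/-- the set of all points which are in the larger set or may be added to it later -/
def Cn.A (p : Cn) : Set Pt := p.X ∪ star p.C

/-- the part `X` (for `true`) or `Y` (for `false`) -/
def sel (s : Bool) (p : Cn) : Set Pt := if s then p.X else p.Y

/-- the trace of the sequence `B` on `X` -/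
def tr (X : Set Pt) (B : ℕ → Ms) : Set (Set Pt) := {A | ∃ m, A = X ∩ (B m).1}

/-- the trace of `B` on `X` is large and satisfies the condition of tau-covers -/
def LT (X : Set Pt) (B : ℕ → Ms) : Prop :=
  (∀ x ∈ X, {A ∈ tr X B | x ∈ A}.Infinite) ∧
  ∀ x ∈ X, ∀ y ∈ X, {A ∈ tr X B | x ∈ A ∧ y ∉ A}.Finite ∨ {A ∈ tr X B | y ∈ A ∧ x ∉ A}.Finite

/-- the condition `p` decides which members of `B` have the same trace -/
def Pat (p : Cn) (B : ℕ → Ms) : Prop :=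
  ∀ j m, (∀ y ∈ p.A, y ∈ (B j).1 ↔ y ∈ (B m).1) ∨ ∃ y ∈ p.X, ¬ (y ∈ (B j).1 ↔ y ∈ (B m).1)

/-- the task of bounding -/
def Bd (p : Cn) (B : ℕ → ℕ → Ms) : Prop :=
  ∃ h : ℕ → ℕ, ∀ y ∈ p.A, ∀ᶠ n in Filter.atTop,
    (∀ᶠ m in Filter.atTop, y ∈ (B n m).1) → ∀ m, h n ≤ m → y ∈ (B n m).1

/-- the task of linear sequences -/
def Ln (p : Cn) (B : ℕ → Ms) : Prop :=
  (∃ x ∈ p.X, ∃ y ∈ p.X, ¬ (∀ᶠ m in Filter.atTop, x ∈ (B m).1 → y ∈ (B m).1) ∧
    ¬ (∀ᶠ m in Filter.atTop, y ∈ (B m).1 → x ∈ (B m).1)) ∨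
  ∀ y ∈ p.A, ∃ x ∈ p.X, ∀ᶠ m in Filter.atTop, x ∈ (B m).1 → y ∈ (B m).1

/-- the task of avoiding `b` -/
def Av (p : Cn) (b : ℕ → Node) : Prop := ∃ t ∈ p.Y, ∀ i, ¬ Node.Anc (t i) (b i)

/-- the task of pairs -/
def Pa (p : Cn) (g : ℕ → ℕ) : Prop :=
  ∃ y ∈ p.Y, ∃ z ∈ p.Y, ∀ i, i < g (col i) → ∀ c, ¬ (Node.Anc (y i) c ∧ Node.Anc (z i) c)

/-- the selection is decided -/
def Ky (p : Cn) (B : ℕ → ℕ → Ms) : Prop :=
  (∀ n, Pat p (B n)) ∧ ((∀ n, LT p.X (B n)) →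
    ∃ ψ : ℕ → ℕ, ∀ y ∈ p.A, ∀ᶠ n in Filter.atTop, y ∈ (B n (ψ n)).1)

/-- embeddings of the space into the line -/
structure Emb (e : Pt → ℝ) : Prop where
  cont : Continuous e
  inj : Function.Injective e
  sep : ∀ (i : ℕ) (c : Node), ∃ O : Set ℝ, IsOpen O ∧ ∀ x, e x ∈ O ↔ x i = c

/-- the sets from which the bad covers are built -/
def Vs (i : ℕ) (b : Node) : Ms := ⟨{x | Node.Anc (x i) b}, by
  have h : Measurable (fun x : Pt => x i) := measurable_pi_apply i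
  exact h (MeasurableSet.of_discrete (s := {x : Node | Node.Anc x b}))⟩

/-! ### objects -/

/-- objects -/
inductive Ob : Type 1
  | nm (τ : Nm Cn) : Ob
  | cn (p : Cn) : Ob
  | pt (x : Pt) : Ob
  | ms (D : Ms) : Ob
  | m1 (D : ℕ → Ms) : Ob
  | m2 (B : ℕ → ℕ → Ms) : Ob
  | bn (b : ℕ → Node) : Ob
  | nn (g : ℕ → ℕ) : Ob
  | st (A : Set ℕ) : Ob
  | kk (k : ℕ) : Ob
  | no : Ob
  | sq (f : ℕ → Ob) : Ob

/-- the name of an object -/
def Ob.un : Ob → Nm Cn
  | .nm τ => τ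
  | _ => Nm.emp

/-- the presentation -/
def pp : FW.Pr Cn Ob where
  nm := .nm
  cn := .cn
  un := Ob.un
  un_nm _ := rfl
  cn_inj _ _ h := by simpa using h

/-- the generic set `X` (for `true`) or `Y` (for `false`) -/
def Gs (s : Bool) (M : Set Ob) (G : Set Cn) : Set Pt := {x | Ob.pt x ∈ M ∧ ∃ p ∈ G, x ∈ sel s p}

/-- the trace of `D` on the generic set, as a set of reals -/
def Zs (e : Pt → ℝ) (s : Bool) (M : Set Ob) (G : Set Cn) (D : Ms) : Set ℝ :=
  e '' (Gs s M G ∩ D.1)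

/-- the generic set as a set of reals -/
def Xs (e : Pt → ℝ) (s : Bool) (M : Set Ob) (G : Set Cn) : Set ℝ := e '' Gs s M G

/-! ### names -/

/-- the name of a set: the values of the names `a i` for `i` in the set decided by `D` -/
def bag {ι : Type} (a : ι → Nm Cn) (D : ι → Set Cn) : Nm Cn :=
  .mk {y : Cn × ι // y.1 ∈ D y.2} (fun y => a y.1.2) (fun y => y.1.1)

/-- the name of the real `e x` -/
def ptN (e : Pt → ℝ) (x : Pt) : Nm Cn :=
  bag (fun k : ℕ => natN Cn k) (fun k => {_p | CR.rat k < e x})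

/-- the name of the trace of `D` on the generic set -/
def ZN (e : Pt → ℝ) (s : Bool) (D : Ms) : Nm Cn :=
  bag (fun x : Pt => ptN e x) (fun x => {p | x ∈ sel s p ∧ x ∈ D.1})

/-- the name of the `n`-th term of the sequence of families with the name `ν` -/
def UN (e : Pt → ℝ) (s : Bool) (ν : Nm Cn) (n : ℕ) : Nm Cn :=
  bag (fun D : Ms => ZN e s D) (fun D => {p | Memf (FW.opN (natN Cn n) (ZN e s D)) ν p})

/-- the bad covers of the smaller generic set -/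
def bad (e : Pt → ℝ) (M : Set Ob) (G : Set Cn) (k : ℕ) : Set (Set ℝ) :=
  {A | ∃ i b, col i = k ∧ b ∈ Node.ball (H i) ∧ A = Zs e false M G (Vs i b)}

end Pool.Agent.HM
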