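import Pool.Agent.Lib.MP_d80832_gt.Mod.P.EM
import Pool.Agent.Lib.MP_d80832_gt.Mod.P.BG
import Pool.Agent.Lib.MP_d80832_gt.Mod.P.PT
import Pool.Agent.Lib.MP_d80832_gt.Mod.P.ZN
import Pool.Agent.Lib.MP_d80832_gt.Mod.P.SA
import Pool.Agent.Lib.MP_d80832_gt.Mod.P.G1
import Pool.Agent.Lib.MP_d80832_gt.Mod.P.ST
import Pool.Agent.Lib.MP_d80832_gt.Mod.P.G3
import Pool.Agent.Lib.MP_d80832_gt.Mod.P.SC
import Pool.Agent.Lib.MP_d80832_gt.Mod.P.MO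
import Pool.Agent.Lib.MP_d80832_gt.Mod.P.PD
import Pool.Agent.Lib.MP_d80832_gt.Mod.P.PI
import Pool.Agent.Lib.MP_d80832_gt.Mod.P.KD
import Pool.Agent.Lib.MP_d80832_gt.Mod.P.G5
import Pool.Agent.Lib.MP_d80832_gt.Mod.P.FR
import Pool.Agent.Lib.MP_d80832_gt.Mod.P.IJ
import Pool.Agent.Lib.MP_d80832_gt.Mod.P.UN
import Pool.Agent.Lib.MP_d80832_gt.Mod.P.EQ
import Pool.Agent.Lib.MP_d80832_gt.Mod.P.GE
import Pool.Agent.Lib.MP_d80832_gt.Mod.P.SQ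
import Pool.Agent.Lib.MP_d80832_gt.Mod.P.SU
import Pool.Agent.Lib.MP_d80832_gt.Mod.P.FA
import Pool.Agent.Lib.MP_d80832_gt.Mod.P.BI
import Pool.Agent.Lib.MP_d80832_gt.Mod.P.CU
import Pool.Agent.Lib.MP_d80832_gt.Mod.P.CS
import Pool.Agent.Lib.MP_d80832_gt.Mod.P.PO
import Pool.Agent.Lib.MP_d80832_gt.Mod.P.G2
import Pool.Agent.Lib.MP_d80832_gt.Mod.P.SF
import Pool.Agent.Lib.MP_d80832_gt.Mod.P.BJ
import Pool.Agent.Lib.MP_d80832_gt.Mod.P.BD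
import Pool.Agent.Lib.MP_d80832_gt.Mod.P.N1
import Pool.Agent.Lib.MP_d80832_gt.Mod.P.G4
import Pool.Agent.Lib.MP_d80832_gt.Mod.P.N2
import Pool.Agent.Lib.MP_d80832_gt.Mod.P.UC
import Pool.Agent.Lib.MP_d80832_gt.Mod.P.IN
import Pool.Agent.Lib.MP_d80832_gt.Mod.P.FI

set_option autoImplicit false

/-!
# MP_d80832_gt : assembly
-/

namespace Pool.Agent.HM

theorem t_EM : S_EM := p_EM 

theorem t_BG : S_BG := p_BG 

theorem t_PT : S_PT := p_PT t_BG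

theorem t_ZN : S_ZN := p_ZN t_BG t_PT

theorem t_SA : S_SA := p_SA t_BG t_ZN

theorem t_G1 : S_G1 := p_G1 

theorem t_ST : S_ST := p_ST 

theorem t_G3 : S_G3 := p_G3 t_ST t_G1

theorem t_SC : S_SC := p_SC 

theorem t_MO : S_MO := p_MO 

theorem t_PD : S_PD := p_PD t_SC t_MO

theorem t_PI : S_PI := p_PI 

theorem t_KD : S_KD := p_KD t_SC t_ST t_PD t_MO t_PI

theorem t_G5 : S_G5 := p_G5 t_KD t_G1

theorem t_FR : S_FR := p_FR t_BG t_ZN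

theorem t_IJ : S_IJ := p_IJ 

theorem t_UN : S_UN := p_UN t_BG t_ZN t_IJ

theorem t_EQ : S_EQ := p_EQ 

theorem t_GE : S_GE := p_GE t_SC

theorem t_SQ : S_SQ := p_SQ t_GE

theorem t_SU : S_SU := p_SU t_GE

theorem t_FA : S_FA := p_FA t_BG t_ZN

theorem t_BI : S_BI := p_BI t_IJ t_ZN t_FA t_SQ

theorem t_CU : S_CU := p_CU t_IJ t_ZN t_SQ t_SU t_BI

theorem t_CS : S_CS := p_CS t_IJ t_BG t_ZN t_UN t_EQ t_GE t_CU

theorem t_PO : S_PO := p_PO t_G5 t_G3 t_G1 t_SA t_FR t_CS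

theorem t_G2 : S_G2 := p_G2 

theorem t_SF : S_SF := p_SF t_BG t_ZN

theorem t_BJ : S_BJ := p_BJ t_SA

theorem t_BD : S_BD := p_BD t_G1 t_G2 t_G3 t_SA t_FR t_SF t_BJ

theorem t_N1 : S_N1 := p_N1 t_IJ t_ZN t_SQ t_G3 t_BD

theorem t_G4 : S_G4 := p_G4 t_ST t_G1

theorem t_N2 : S_N2 := p_N2 t_IJ t_BG t_ZN t_UN t_EQ t_GE t_G4 t_BD

theorem t_UC : S_UC := p_UC t_IJ t_PT t_SQ t_G3

theorem t_IN : S_IN := p_IN 

theorem t_FI : S_FI := p_FI t_EM t_SA t_G1 t_G3 t_PO t_N1 t_N2 t_UC t_IN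

end Pool.Agent.HM
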