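import Pool.Agent.Lib.MP_d80832_gt.Mod.Defs

set_option autoImplicit false

/-!
# MP_d80832_gt : the statements of the pieces

Each piece is a proposition `S_...`. The proofs are in the files `P/...`.
-/

namespace Pool.Agent.HM

open Pool.Agent.Lib.MP_d80832_gt
open Pool.Agent.CR (V Nm nat natN cut setR Memf Eqf IsTransModelZFC)
open Pool.Agent.FW (Ev)

/-! ### combinatorics of the conditions -/

/-- lower bounds of decreasing sequences -/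
def S_SC : Prop := ∀ p : ℕ → Cn, (∀ n, p (n + 1) ≤ p n) → ∃ q, ∀ n, q ≤ p n

/-- monotonicity -/
def S_MO : Prop := ∀ p q : Cn, q ≤ p → q.A ⊆ p.A ∧ (∀ B, Pat p B → Pat q B) ∧
  (∀ B, Bd p B → Bd q B) ∧ ∀ B, Ln p B → Ln q B

/-- one step -/
def S_ST : Prop := ∀ (p : Cn) (B1 : ℕ → ℕ → Ms) (B2 : ℕ → Ms) (b : ℕ → Node) (g : ℕ → ℕ),
  ∃ q ≤ p, Bd q B1 ∧ Ln q B2 ∧ Av q b ∧ Pa q g

/-- deciding the pattern -/
def S_PD : Prop := ∀ (p : Cn) (B : ℕ → Ms), ∃ q ≤ p, Pat q B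

/-- pseudointersections -/
def S_PI : Prop := ∀ (X : Set Pt) (B : ℕ → Ms), X.Countable →
  (∀ x ∈ X, ∀ y ∈ X, (∀ᶠ m in Filter.atTop, x ∈ (B m).1 → y ∈ (B m).1) ∨
    ∀ᶠ m in Filter.atTop, y ∈ (B m).1 → x ∈ (B m).1) →
  (∀ x ∈ X, ∃ᶠ m in Filter.atTop, x ∈ (B m).1) →
  ∃ φ : ℕ → ℕ, StrictMono φ ∧ ∀ x ∈ X, ∀ᶠ k in Filter.atTop, x ∈ (B (φ k)).1

/-- deciding the selection -/
def S_KD : Prop := ∀ (p : Cn) (B : ℕ → ℕ → Ms), ∃ q ≤ p, Ky q B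

/-- the space embeds in the line -/
def S_EM : Prop := ∃ e : Pt → ℝ, Emb e

/-! ### codes -/

/-- the codes are injective -/
def S_IJ : Prop :=
  (∀ m n : ℕ, nat m = nat n → m = n) ∧ (∀ x y : ℝ, cut x = cut y → x = y) ∧
  (∀ A B : Set ℝ, setR A = setR B → A = B) ∧
  (∀ U U' : Set (Set ℝ), famR U = famR U' → U = U') ∧
  (∀ (U : Set (Set ℝ)) (A : Set ℝ), setR A ∈ famR U ↔ A ∈ U) ∧
  (∀ (W : ℕ → Set ℝ) (n : ℕ) (A : Set ℝ),
    ZFSet.pair (nat n) (setR A) ∈ seqA W ↔ A = W n) ∧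
  (∀ (U : ℕ → Set (Set ℝ)) (n : ℕ) (A : Set ℝ),
    ZFSet.pair (nat n) (setR A) ∈ seqF U ↔ A ∈ U n) ∧
  ∀ (s : ℕ → ℝ) (n : ℕ) (x : ℝ), ZFSet.pair (nat n) (cut x) ∈ seqX s ↔ x = s n

/-! ### names -/

/-- values of the names of sets -/
def S_BG : Prop := ∀ (ι : Type) (ob : ι → Ob), Function.Injective ob →
  ∀ (a : List Ob → ι → Nm Cn) (D : List Ob → ι → Set Cn),
  Ev pp (fun M G => ∀ l : List Ob, (∀ x ∈ l, x ∈ M) →
    bag (a l) (D l) ∈ pp.H M ∧ (∀ i, ob i ∈ M → a l i ∈ pp.H M) ∧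
    ∀ z, z ∈ pp.vl M G (bag (a l) (D l)) ↔
      ∃ i, ob i ∈ M ∧ (∃ p ∈ G, p ∈ D l i) ∧ z = pp.vl M G (a l i))

/-- names of the points -/
def S_PT : Prop := ∀ e : Pt → ℝ, Ev pp (fun M G => ∀ x, Ob.pt x ∈ M →
  ptN e x ∈ pp.H M ∧ pp.vl M G (ptN e x) = cut (e x))

/-- names of the traces -/
def S_ZN : Prop := ∀ e : Pt → ℝ, Ev pp (fun M G => ∀ (s : Bool) (D : Ms), Ob.ms D ∈ M →
  ZN e s D ∈ pp.H M ∧ pp.vl M G (ZN e s D) = setR (Zs e s M G D))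

/-- the generic sets and sequences of traces are in the model -/
def S_SA : Prop := ∀ e : Pt → ℝ, Ev pp (fun M G => ∀ s : Bool,
  setR (Xs e s M G) ∈ pp.N M G ∧
  ∀ D : ℕ → Ms, Ob.m1 D ∈ M → seqA (fun n => Zs e s M G (D n)) ∈ pp.N M G)

/-- the family of all traces is in the model -/
def S_FA : Prop := ∀ e : Pt → ℝ, Ev pp (fun M G => ∀ s : Bool,
  famR {A | ∃ D, Ob.ms D ∈ M ∧ A = Zs e s M G D} ∈ pp.N M G)

/-- countable families of traces are in the model -/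
def S_FR : Prop := ∀ e : Pt → ℝ, Ev pp (fun M G => ∀ (s : Bool) (D : ℕ → Ms), Ob.m1 D ∈ M →
  famR (Set.range fun n => Zs e s M G (D n)) ∈ pp.N M G)

/-- sequences of countable families of traces are in the model -/
def S_SF : Prop := ∀ e : Pt → ℝ, Ev pp (fun M G => ∀ (s : Bool) (B : ℕ → ℕ → Ms), Ob.m2 B ∈ M →
  seqF (fun n => Set.range fun m => Zs e s M G (B n m)) ∈ pp.N M G)

/-- the names of the terms of a sequence of families -/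
def S_UN : Prop := ∀ e : Pt → ℝ, Ev pp (fun M G => ∀ (s : Bool) (ν : Nm Cn), ν ∈ pp.H M →
  ∀ (n : ℕ) (U : ℕ → Set (Set ℝ)), pp.vl M G ν = seqF U →
  (∀ A ∈ U n, ∃ D, Ob.ms D ∈ M ∧ A = Zs e s M G D) →
  UN e s ν n ∈ pp.H M ∧ pp.vl M G (UN e s ν n) = famR (U n))

/-- equality at the generic point -/
def S_EQ : Prop := Ev pp (fun M G => ∀ σ ∈ pp.H M, ∀ τ ∈ pp.H M,
  (pp.vl M G σ = pp.vl M G τ ↔ ∃ p ∈ G, Eqf σ τ p))

/-! ### no new sequences -/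

/-- sequences of choices are decided -/
def S_GE : Prop := ∀ R : List Ob → ℕ → Ob → Cn → Prop,
  (∀ l n x p q, q ≤ p → R l n x p → R l n x q) →
  Ev pp (fun M G => ∀ l : List Ob, (∀ x ∈ l, x ∈ M) → (∀ n, ∃ x, ∃ p ∈ G, R l n x p) →
    ∃ F : ℕ → Ob, Ob.sq F ∈ M ∧ ∃ p ∈ G, ∀ n, R l n (F n) p)

/-- sequences of the model with values given by names -/
def S_SQ : Prop := ∀ (ι : Type) (ob : ι → Ob), Function.Injective ob → (∀ i, ob i ≠ Ob.no) →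
  ∀ (a : ι → Nm Cn) (K : ℕ → ι → Prop),
  Ev pp (fun M G => ∀ w ∈ pp.N M G, ∃ F : ℕ → Option ι,
    Ob.sq (fun n => (F n).elim Ob.no ob) ∈ M ∧
    ∀ n, (∀ i, F n = some i → ob i ∈ M ∧ K n i ∧
        ZFSet.pair (nat n) (pp.vl M G (a i)) ∈ w) ∧
      (F n = none → ∀ i, ob i ∈ M → K n i → ZFSet.pair (nat n) (pp.vl M G (a i)) ∉ w))

/-- subsets of countable sets -/
def S_SU : Prop := ∀ a : List Ob → ℕ → Nm Cn,
  Ev pp (fun M G => ∀ l : List Ob, (∀ x ∈ l, x ∈ M) → ∀ w ∈ pp.N M G,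
    ∃ A : Set ℕ, Ob.st A ∈ M ∧ ∀ m, a l m ∈ pp.H M ∧ (m ∈ A ↔ pp.vl M G (a l m) ∈ w))

/-! ### the generic sets -/

/-- the generic sets between the conditions -/
def S_G1 : Prop := Ev pp (fun M G => Gs false M G ⊆ Gs true M G ∧ ∀ p ∈ G,
  (∀ s, sel s p ⊆ Gs s M G) ∧ Gs true M G ⊆ p.A)

/-- the chain property -/
def S_G2 : Prop := Ev pp (fun M G =>
  (∀ u ∈ Gs false M G, ∀ v ∈ Gs false M G, ∀ k, Below col k u v ∨ Below col k v u) ∧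
  ∀ y ∈ Gs false M G, ∀ᶠ i in Filter.atTop, y i ∈ Node.ball (H i))

/-- avoiding sequences of the model -/
def S_G3 : Prop := Ev pp (fun M G => ∀ b, Ob.bn b ∈ M →
  ∃ t ∈ Gs false M G, ∀ i, ¬ Node.Anc (t i) (b i))

/-- incompatible pairs -/
def S_G4 : Prop := Ev pp (fun M G => ∀ g, Ob.nn g ∈ M →
  ∃ y ∈ Gs false M G, ∃ z ∈ Gs false M G, ∀ i, i < g (col i) →
    ∀ c, ¬ (Node.Anc (y i) c ∧ Node.Anc (z i) c))

/-- the selection -/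
def S_G5 : Prop := Ev pp (fun M G => ∀ B, Ob.m2 B ∈ M → (∀ n, LT (Gs true M G) (B n)) →
  ∃ ψ : ℕ → ℕ, Ob.nn ψ ∈ M ∧ ∀ y ∈ Gs true M G, ∀ᶠ n in Filter.atTop, y ∈ (B n (ψ n)).1)

/-! ### Borel sets and covers of the model -/

/-- the Borel sets of the model are traces -/
def S_BI : Prop := ∀ e : Pt → ℝ, Emb e → Ev pp (fun M G => ∀ (s : Bool) (A : Set ℝ),
  BorelIn (pp.N M G) (Xs e s M G) A → ∃ D, Ob.ms D ∈ M ∧ A = Zs e s M G D)

/-- the simple sets are Borel in the model -/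
def S_BJ : Prop := ∀ e : Pt → ℝ, Emb e → Ev pp (fun M G => ∀ (s : Bool) (i : ℕ) (b : Node),
  BorelIn (pp.N M G) (Xs e s M G) (Zs e s M G (Vs i b)))

/-- the countable Borel families of the model -/
def S_CU : Prop := ∀ e : Pt → ℝ, Emb e → Ev pp (fun M G => ∀ (s : Bool) (U : Set (Set ℝ)),
  U.Nonempty → CtblBorel (pp.N M G) (Xs e s M G) U →
  ∃ D : ℕ → Ms, Ob.m1 D ∈ M ∧ U = Set.range fun m => Zs e s M G (D m))

/-- the sequences of countable Borel families of the model -/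
def S_CS : Prop := ∀ e : Pt → ℝ, Emb e → Ev pp (fun M G => ∀ (s : Bool)
  (U : ℕ → Set (Set ℝ)), seqF U ∈ pp.N M G → (∀ n, (U n).Nonempty) →
  (∀ n, CtblBorel (pp.N M G) (Xs e s M G) (U n)) →
  ∃ B : ℕ → ℕ → Ms, Ob.m2 B ∈ M ∧ ∀ n, U n = Set.range fun m => Zs e s M G (B n m))

/-- the positive half -/
def S_PO : Prop := ∀ e : Pt → ℝ, Emb e → Ev pp (fun M G =>
  S1 (pp.N M G) (BTau (pp.N M G) (Xs e true M G)) (BGamma (pp.N M G) (Xs e true M G)))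

/-- the bad covers -/
def S_BD : Prop := ∀ e : Pt → ℝ, Emb e → Ev pp (fun M G =>
  seqF (bad e M G) ∈ pp.N M G ∧ ∀ k, bad e M G k ∈ BTau (pp.N M G) (Xs e false M G))

/-- the negative half for `S1` -/
def S_N1 : Prop := ∀ e : Pt → ℝ, Emb e → Ev pp (fun M G =>
  ¬ S1 (pp.N M G) (BTau (pp.N M G) (Xs e false M G)) (BCov (pp.N M G) (Xs e false M G)))

/-- the negative half for `Sfin` -/
def S_N2 : Prop := ∀ e : Pt → ℝ, Emb e → Ev pp (fun M G =>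
  ¬ Sfin (pp.N M G) (BTau (pp.N M G) (Xs e false M G)) (BOmega (pp.N M G) (Xs e false M G)))

/-- the smaller set is uncountable in the model -/
def S_UC : Prop := ∀ e : Pt → ℝ, Emb e → Ev pp (fun M G =>
  UncountableIn (pp.N M G) (Xs e false M G))

/-- inclusions between the classes of covers -/
def S_IN : Prop := ∀ (N : Set V) (X : Set ℝ), BGamma N X ⊆ BTau N X ∧
  (X.Nonempty → BTau N X ⊆ BOmega N X) ∧ BOmega N X ⊆ BCov N X ∧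
  (∀ A B B' : Set (Set (Set ℝ)), B ⊆ B' → S1 N A B → S1 N A B') ∧
  (∀ A B B' : Set (Set (Set ℝ)), B ⊆ B' → Sfin N A B → Sfin N A B') ∧
  ∀ A B : Set (Set (Set ℝ)), S1 N A B → Sfin N A B

/-- the theorem -/
def S_FI : Prop := ∃ N : Set V, N.Countable ∧ IsTransModelZFC N ∧ ∃ X Y : Set ℝ,
  setR X ∈ N ∧ setR Y ∈ N ∧ Y ⊆ X ∧ UncountableIn N Y ∧ AllSix N X ∧ NoneOfSix N Y

end Pool.Agent.HM
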